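import Pool.Agent.MNT.StmtsA

set_option autoImplicit false
set_option linter.unusedSectionVars false
set_option linter.unusedVariables false

/-!
# MNT, row OTA: the inequality at every grounded cluster, archimedean case
-/

namespace Pool.Agent.MNT.H32

open Polynomial

section gen

variable {P : Type} [Fintype P] [DecidableEq P]

/-- An odd set of roots which is separated from the other roots at the level of `c`. -/
theorem grd_set (Λ : Lam P) (R : Finset P) (c : Finset P) (hg : Λ.Grd R c) :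
    ∃ S : Finset P, S ⊆ R ∧ S ⊆ c ∧ Odd S.card ∧ ∀ p ∈ S, ∀ q ∈ R \ S, ∀ d ∈ Λ.V,
      {p, q} ⊆ d → c ⊆ d := by
  rcases hg with ⟨p₀, hp₀, hp₀c, h⟩ | ⟨s, ⟨hsV, hsc, hs⟩, hodd⟩
  · refine ⟨{p₀}, by simpa using hp₀, by simpa using hp₀c, by simp, ?_⟩
    intro p hp q _ d hd hpq
    rw [Finset.mem_singleton] at hp
    subst hp
    exact h d hd (hpq (Finset.mem_insert_self _ _))
  · refine ⟨s ∩ R, Finset.inter_subset_right, fun a ha => hsc.1 (Finset.mem_inter.1 ha).1, hodd, ?_⟩
    intro p hp q hq d hd hpq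
    have hp1 := (Finset.mem_inter.1 hp).1
    have hq1 : q ∉ s := by
      intro h
      exact (Finset.mem_sdiff.1 hq).2 (Finset.mem_inter.2 ⟨h, (Finset.mem_sdiff.1 hq).1⟩)
    have hpd : p ∈ d := hpq (Finset.mem_insert_self _ _)
    have hqd : q ∈ d := hpq (Finset.mem_insert_of_mem (Finset.mem_singleton_self _))
    rcases Λ.lam s hsV d hd with h | h | h
    · exact hs d hd ⟨h, fun h' => hq1 (h' hqd)⟩
    · exact absurd (h hqd) hq1
    · exact absurd (Finset.disjoint_left.1 h hp1) (fun h' => h' hpd)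

theorem lev_le (Λ : Lam P) (c s : Finset P) (h : ∀ d ∈ Λ.V, s ⊆ d → c ⊆ d) :
    Λ.lev s ≤ Λ.lev c := by
  unfold Lam.lev
  apply Finset.sum_le_sum_of_subset_of_nonneg
  · intro d hd
    rw [Finset.mem_filter] at hd ⊢
    exact ⟨hd.1, h d hd.1 hd.2⟩
  · intro d hd hd'
    rw [Finset.mem_filter] at hd hd'
    refine (Λ.pos d hd.1 ?_).le
    rintro rfl
    exact hd' ⟨hd.1, Finset.subset_univ _⟩

theorem FF_roots {E : Type} [Field E] (e : E) (he : e ≠ 0) (R : Finset P) (z : P → E) :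
    (FF e R z).roots = R.val.map z := by
  unfold FF
  rw [roots_C_mul _ he, roots_prod _ _ (Finset.prod_ne_zero_iff.2 fun p _ => X_sub_C_ne_zero _)]
  simp only [roots_X_sub_C]
  rw [Multiset.bind_singleton]

theorem FF_ne {E : Type} [Field E] (e : E) (he : e ≠ 0) (R : Finset P) (z : P → E) :
    FF e R z ≠ 0 :=
  mul_ne_zero (C_ne_zero.2 he) (Finset.prod_ne_zero_iff.2 fun p _ => X_sub_C_ne_zero _)

/-- enlarging the radius -/
theorem harm_mono {E : Type} [Field E] (v : AbsoluteValue E ℝ) (Z : Multiset E) (x p : E)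
    (r ρ e e' : ℝ) (hr : 0 < r) (hρ : r ≤ ρ) (he : e + Real.log (ρ / r) ≤ e')
    (h : Harm v Z x p r e) : Harm v Z x p ρ e' := by
  unfold Harm at h ⊢
  have hρ0 : 0 < ρ := hr.trans_le hρ
  have key : ∀ t : ℝ, Real.log (max ρ t) ≤ Real.log (max r t) + Real.log (ρ / r) := by
    intro t
    have h1 : 0 < max r t := lt_max_of_lt_left hr
    have h2 : 0 < ρ / r := div_pos hρ0 hr
    rw [← Real.log_mul h1.ne' h2.ne']
    apply Real.log_le_log (lt_max_of_lt_left hρ0)
    apply max_le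
    · calc ρ = r * (ρ / r) := by field_simp
        _ ≤ max r t * (ρ / r) := mul_le_mul_of_nonneg_right (le_max_left _ _) h2.le
    · by_cases ht : 0 ≤ t
      · have h3 : 1 ≤ ρ / r := (one_le_div hr).2 hρ
        calc t = t * 1 := (mul_one t).symm
          _ ≤ max r t * (ρ / r) := mul_le_mul (le_max_right _ _) h3 zero_le_one h1.le
      · push Not at ht
        exact ht.le.trans (mul_pos h1 h2).le
  have s1 : (Z.map fun ζ => Real.log (max ρ (v (ζ - p)))).sum ≤
      (Z.map fun ζ => Real.log (max r (v (ζ - p))) + Real.log (ρ / r)).sum :=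
    Multiset.sum_map_le_sum_map _ _ fun ζ _ => key _
  rw [Multiset.sum_map_add, Multiset.map_const', Multiset.sum_replicate, nsmul_eq_mul] at s1
  have s2 : Real.log (max r (v (x - p))) ≤ Real.log (max ρ (v (x - p))) :=
    Real.log_le_log (lt_max_of_lt_left hr) (max_le_max_right _ hρ)
  have s3 : (0 : ℝ) ≤ Multiset.card Z := Nat.cast_nonneg _
  calc _ ≤ (Z.map fun ζ => Real.log (max r (v (ζ - p)))).sum +
        (Multiset.card Z : ℝ) * Real.log (ρ / r) := s1
    _ ≤ (Multiset.card Z : ℝ) * (Real.log (max r (v (x - p))) + e) +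
        (Multiset.card Z : ℝ) * Real.log (ρ / r) := add_le_add h le_rfl
    _ = (Multiset.card Z : ℝ) * (Real.log (max r (v (x - p))) + (e + Real.log (ρ / r))) := by ring
    _ ≤ _ := mul_le_mul_of_nonneg_left (add_le_add s2 he) s3

end gen

theorem ota (hT : ThnStmt) (hO : OdaStmt) : OtaStmt := by
  intro n M
  have hn0 : (0 : ℝ) ≤ n * Real.log (4 * n) := by
    rcases Nat.eq_zero_or_pos n with rfl | hn
    · simp
    · have : (1 : ℝ) ≤ n := by exact_mod_cast hn
      exact mul_nonneg (by linarith) (Real.log_nonneg (by linarith))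
  refine ⟨Real.log 128 + |M| + n * Real.log (4 * n), ?_, ?_⟩
  · have := Real.log_nonneg (show (1 : ℝ) ≤ 128 by norm_num)
    have := abs_nonneg M
    linarith
  intro P _ _ hP R z hz Λ hrep e he c hc hg
  obtain ⟨S, hSR, hSc, hodd, hsep⟩ := grd_set Λ R c hg
  set ρ := Real.exp (-Λ.lev c) with hρ
  have hρ0 : 0 < ρ := Real.exp_pos _
  set δ := ρ * Real.exp (-|M|) with hδ
  have hδ0 : 0 < δ := mul_pos hρ0 (Real.exp_pos _)
  have hδρ : δ ≤ ρ := by
    have : Real.exp (-|M|) ≤ 1 := Real.exp_le_one_iff.2 (neg_nonpos.2 (abs_nonneg M))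
    calc δ ≤ ρ * 1 := mul_le_mul_of_nonneg_left this hρ0.le
      _ = ρ := mul_one _
  have hdist : ∀ p ∈ S, ∀ q ∈ R \ S, δ ≤ ‖z q - z p‖ := by
    intro p hp q hq
    have hpq : p ≠ q := by
      rintro rfl
      exact (Finset.mem_sdiff.1 hq).2 hp
    have h1 := hrep p q hpq
    have h2 : Λ.lev {p, q} ≤ Λ.lev c := lev_le Λ c {p, q} (hsep p hp q hq)
    have h3 : 0 < ‖z q - z p‖ := by
      rw [norm_pos_iff, sub_ne_zero]
      exact fun h => hpq (hz h).symm
    have h4 : dis vC z p q = -Real.log ‖z q - z p‖ := by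
      unfold dis
      rw [norm_sub_rev]
      rfl
    rw [h4] at h1
    have h5 := (abs_le.1 h1).2
    have h6 : -Λ.lev c + -|M| ≤ Real.log ‖z q - z p‖ := by
      have := le_abs_self M
      linarith
    calc δ = Real.exp (-Λ.lev c + -|M|) := by rw [hδ, hρ, Real.exp_add]
      _ ≤ Real.exp (Real.log ‖z q - z p‖) := Real.exp_le_exp.2 h6
      _ = _ := Real.exp_log h3
  obtain ⟨S', hS', p, hp, r, hr1, hr2, hodd', hin, hout⟩ := hT P z R S δ hSR hodd hδ0 hdist
  have hcard : 0 < Fintype.card P := Fintype.card_pos_iff.2 ⟨p⟩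
  have hcard1 : (1 : ℝ) ≤ Fintype.card P := by exact_mod_cast hcard
  have hb0 : (0 : ℝ) < (4 * (Fintype.card P : ℝ)) ^ S.card := by positivity
  have hr0 : 0 < r := (div_pos hδ0 hb0).trans_le hr1
  refine ⟨p, hSc (hS' hp), ?_⟩
  intro x N U W c' hsol
  have hcnt : BHT.cnt norm (FF e R z) (z p) (r / 2) = S'.card := by
    unfold BHT.cnt
    rw [FF_roots e he R z, Multiset.countP_map, ← Finset.filter_val, Finset.card_val]
    congr 1
    ext q
    rw [Finset.mem_filter]
    constructor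
    · rintro ⟨hq, hq'⟩
      by_contra hn
      have := hout q (Finset.mem_sdiff.2 ⟨hq, hn⟩)
      linarith
    · intro hq
      exact ⟨hSR (hS' hq), hin q hq⟩
  have hroots : ∀ α ∈ (FF e R z).roots, ‖α - z p‖ ≤ r / 2 ∨ r ≤ ‖α - z p‖ := by
    intro α hα
    rw [FF_roots e he R z, Multiset.mem_map] at hα
    obtain ⟨q, hq, rfl⟩ := hα
    by_cases h : q ∈ S'
    · exact Or.inl (hin q h)
    · exact Or.inr (hout q (Finset.mem_sdiff.2 ⟨hq, h⟩))
  have hH := hO (FF e R z) x N U W c' (FF_ne e he R z) hsol (z p) r hr0 (hcnt ▸ hodd') hroots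
  refine harm_mono vC U.roots x (z p) r ρ _ _ hr0 (hr2.trans hδρ) ?_ hH
  have h7 : ρ / r ≤ Real.exp |M| * (4 * (Fintype.card P : ℝ)) ^ S.card := by
    rw [div_le_iff₀ hr0]
    have h8 : δ ≤ r * (4 * (Fintype.card P : ℝ)) ^ S.card := (div_le_iff₀ hb0).1 hr1
    have h9 : ρ = δ * Real.exp |M| := by
      rw [hδ, mul_assoc, ← Real.exp_add]
      simp
    calc ρ = δ * Real.exp |M| := h9
      _ ≤ (r * (4 * (Fintype.card P : ℝ)) ^ S.card) * Real.exp |M| :=
        mul_le_mul_of_nonneg_right h8 (Real.exp_pos _).le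
      _ = _ := by ring
  have h10 : Real.log (ρ / r) ≤ |M| + S.card * Real.log (4 * (Fintype.card P : ℝ)) := by
    calc Real.log (ρ / r) ≤ Real.log (Real.exp |M| * (4 * (Fintype.card P : ℝ)) ^ S.card) :=
          Real.log_le_log (div_pos hρ0 hr0) h7
      _ = _ := by
        rw [Real.log_mul (Real.exp_pos _).ne' hb0.ne', Real.log_exp, Real.log_pow]
  have hPn : (Fintype.card P : ℝ) ≤ n := by exact_mod_cast hP
  have hSn : (S.card : ℝ) ≤ n := by
    have := Finset.card_le_univ S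
    exact_mod_cast this.trans hP
  have h11 : Real.log (4 * (Fintype.card P : ℝ)) ≤ Real.log (4 * n) :=
    Real.log_le_log (by linarith) (by linarith)
  have h12 : 0 ≤ Real.log (4 * (Fintype.card P : ℝ)) := Real.log_nonneg (by linarith)
  have h13 : (S.card : ℝ) * Real.log (4 * (Fintype.card P : ℝ)) ≤ n * Real.log (4 * n) :=
    mul_le_mul hSn h11 h12 (Nat.cast_nonneg _)
  linarith

end Pool.Agent.MNT.H32
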