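import Pool.Agent.MNT.StmtsG
import Pool.Agent.Helper51_UBT.Iso

set_option autoImplicit false

/-!
# MNT, row AFF: affine changes over an algebraically closed field
-/

namespace Pool.Agent.MNT.H32

open Polynomial

theorem ptI_map {E : Type} [Field E] (F G : E[X]) (μ s ν : E) (hμ : μ ≠ 0) (hs : s ≠ 0)
    (h : C (s ^ 2) * G = F.comp (C μ * X + C ν)) (x y : E) :
    (ptI F (μ * x + ν) y).map (UBT51.chg F G μ s ν h) = ptI G x (y / s) := by
  unfold ptI
  rw [Ideal.map_span, Set.image_pair]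
  have e1 : UBT51.chg F G μ s ν h (⟨X - C (μ * x + ν), 0⟩ : H58Q.Q E F) =
      (⟨C μ, 0⟩ : H58Q.Q E G) * ⟨X - C x, 0⟩ := by
    ext1
    · change (X - C (μ * x + ν)).comp (C μ * X + C ν) = _
      rw [QuadraticAlgebra.re_mul]
      rw [sub_comp, X_comp, C_comp, C_add, C_mul]
      ring
    · change C s * (0 : E[X]).comp (C μ * X + C ν) = _
      rw [QuadraticAlgebra.im_mul]
      simp
  have e2 : UBT51.chg F G μ s ν h (⟨-C y, 1⟩ : H58Q.Q E F) =
      (⟨C s, 0⟩ : H58Q.Q E G) * ⟨-C (y / s), 1⟩ := by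
    have hy : C y = C s * C (y / s) := by
      rw [← C_mul, mul_div_cancel₀ _ hs]
    ext1
    · change (-C y).comp (C μ * X + C ν) = _
      rw [QuadraticAlgebra.re_mul]
      simp only [neg_comp, C_comp]
      rw [hy]
      ring
    · change C s * (1 : E[X]).comp (C μ * X + C ν) = _
      rw [QuadraticAlgebra.im_mul]
      simp
  have hu : ∀ a : E, a ≠ 0 → IsUnit (⟨C a, 0⟩ : H58Q.Q E G) := by
    intro a ha
    refine IsUnit.of_mul_eq_one (⟨C a⁻¹, 0⟩ : H58Q.Q E G) ?_
    ext1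
    · rw [QuadraticAlgebra.re_mul, QuadraticAlgebra.re_one]
      simp only [mul_zero, add_zero]
      rw [← C_mul, mul_inv_cancel₀ ha, C_1]
    · rw [QuadraticAlgebra.im_mul, QuadraticAlgebra.im_one]
      simp
  rw [e1, e2]
  apply le_antisymm
  · rw [Ideal.span_le]
    rintro a (rfl | rfl)
    · exact Ideal.mul_mem_left _ _ (Ideal.subset_span (Or.inl rfl))
    · exact Ideal.mul_mem_left _ _ (Ideal.subset_span (Or.inr rfl))
  · rw [Ideal.span_le]
    rintro a (rfl | rfl)
    · exact (Ideal.unit_mul_mem_iff_mem _ (hu μ hμ)).1 (Ideal.subset_span (Or.inl rfl))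
    · exact (Ideal.unit_mul_mem_iff_mem _ (hu s hs)).1 (Ideal.subset_span (Or.inr rfl))

theorem aff : AffStmt := by
  intro g Ω _ _ z z' e e' μ ν he he' hμ hz x y y' N hy hy' hT
  obtain ⟨s, hs⟩ := IsAlgClosed.exists_pow_nat_eq (e * μ ^ (RR g).card / e') (n := 2) (by norm_num)
  have hs0 : s ≠ 0 := by
    intro h
    rw [h] at hs
    have : e * μ ^ (RR g).card / e' ≠ 0 := div_ne_zero (mul_ne_zero he (pow_ne_zero _ hμ)) he'
    apply this
    rw [← hs]
    norm_num
  have hc : C (s ^ 2) * FF e' (RR g) z' = (FF e (RR g) z).comp (C μ * X + C ν) := by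
    unfold FF
    rw [mul_comp, C_comp, prod_comp]
    have h1 : ∀ p ∈ RR g, (X - C (z p)).comp (C μ * X + C ν) = C μ * (X - C (z' p)) := by
      intro p _
      rw [hz p]
      rw [sub_comp, X_comp, C_comp, C_add, C_mul]
      ring
    rw [Finset.prod_congr rfl h1, Finset.prod_mul_distrib, Finset.prod_const, hs, ← mul_assoc,
      ← mul_assoc, ← C_mul, ← C_pow, ← C_mul, div_mul_cancel₀ _ he']
  -- for a square root `t` with the right sign
  have key : ∀ t : Ω, t ≠ 0 → C (t ^ 2) * FF e' (RR g) z' = (FF e (RR g) z).comp (C μ * X + C ν) →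
      y / t = y' → TorB (FF e' (RR g) z') (z' x) y' N := by
    intro t ht hc' hyt
    refine ⟨hT.1, ?_⟩
    have h2 := ptI_map (FF e (RR g) z) (FF e' (RR g) z') μ t ν hμ ht hc' (z' x) y
    rw [hyt, ← hz x] at h2
    rw [← h2, ← Ideal.map_pow]
    exact Submodule.IsPrincipal.map_ringHom _ hT.2
  have hv : s ^ 2 * y' ^ 2 = y ^ 2 := by
    have h3 := congrArg (eval (z' x)) hc
    rw [eval_mul, eval_C, eval_comp, eval_add, eval_mul, eval_C, eval_X, eval_C, ← hz x, ← hy,
      ← hy'] at h3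
    exact h3
  have h4 : (y / s) ^ 2 = y' ^ 2 := by
    rw [div_pow, ← hv, mul_div_cancel_left₀ _ (pow_ne_zero 2 hs0)]
  rcases sq_eq_sq_iff_eq_or_eq_neg.1 h4 with h | h
  · exact key s hs0 hc h
  · refine key (-s) (neg_ne_zero.2 hs0) ?_ ?_
    · rw [neg_sq]
      exact hc
    · rw [div_neg, h, neg_neg]

end Pool.Agent.MNT.H32
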